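import Pool.Agent.H466.HE.SA

/-!
# HE-L3g (and HD-L3): the small multiples of the primes
-/

set_option autoImplicit false

namespace Pool.Agent.H671.HE

open Complex MeasureTheory Set Filter Topology
open scoped ComplexConjugate
open Pool.Agent.H477.E (MT bc Nn)
open Pool.Agent.H448R2.GC (cu)
open Pool.Agent.H466.HD

/-! ### Möbius sums -/

theorem moeb_sum (f : ℕ → ℂ) (f1 : f 1 = 1) (fm : ∀ a b, a ≠ 0 → b ≠ 0 → f (a * b) = f a * f b)
    {n : ℕ} (hn : n ≠ 0) :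
    ∑ m ∈ n.divisors, ((ArithmeticFunction.moebius m : ℤ) : ℂ) * f m =
      ∏ p ∈ n.primeFactors, (1 - f p) := by
  set r : ℕ := ∏ p ∈ n.primeFactors, p with hr
  have hrn : r ∣ n := Nat.prod_primeFactors_dvd n
  have hr0 : r ≠ 0 := fun h => hn (Nat.eq_zero_of_zero_dvd (h ▸ hrn))
  have hrp : r.primeFactors = n.primeFactors := Nat.primeFactors_prod_primeFactors n
  have hrs : Squarefree r := by
    rw [hr]
    apply Finset.squarefree_prod_of_pairwise_isCoprime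
    · intro a ha b hb hab
      have ha' := Nat.prime_of_mem_primeFactors ha
      have hb' := Nat.prime_of_mem_primeFactors hb
      exact Nat.coprime_iff_isRelPrime.1 ((Nat.coprime_primes ha' hb').2 hab)
    · intro a ha
      exact (Nat.prime_of_mem_primeFactors ha).prime.squarefree
  have h1 : ∑ m ∈ n.divisors, ((ArithmeticFunction.moebius m : ℤ) : ℂ) * f m =
      ∑ m ∈ r.divisors, ((ArithmeticFunction.moebius m : ℤ) : ℂ) * f m := by
    symm
    apply Finset.sum_subset (Nat.divisors_subset_of_dvd hn hrn)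
    intro m hm hmr
    have hmn := Nat.dvd_of_mem_divisors hm
    have hm0 : m ≠ 0 := fun h => hn (Nat.eq_zero_of_zero_dvd (h ▸ hmn))
    have hsq : ¬ Squarefree m := by
      intro hs
      apply hmr
      rw [Nat.mem_divisors]
      refine ⟨?_, hr0⟩
      rw [← Nat.prod_primeFactors_of_squarefree hs, hr]
      exact Finset.prod_dvd_prod_of_subset _ _ _ (Nat.primeFactors_mono hmn hn)
    rw [ArithmeticFunction.moebius_eq_zero_of_not_squarefree hsq]
    simp
  let F : ArithmeticFunction ℂ := ⟨fun m => if m = 0 then 0 else f m, by simp⟩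
  have hF : F.IsMultiplicative := by
    rw [ArithmeticFunction.IsMultiplicative.iff_ne_zero]
    refine ⟨by simp [F, f1], fun {a b} ha hb _ => ?_⟩
    simp only [F, ArithmeticFunction.coe_mk, mul_eq_zero, ha, hb, or_self, if_false]
    exact fm a b ha hb
  have h2 := hF.prodPrimeFactors_one_sub_of_squarefree F hrs
  rw [h1]
  rw [hrp] at h2
  have h3 : ∏ p ∈ n.primeFactors, (1 - f p) = ∏ p ∈ n.primeFactors, (1 - F p) := by
    apply Finset.prod_congr rfl
    intro p hp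
    have hp0 : p ≠ 0 := (Nat.prime_of_mem_primeFactors hp).ne_zero
    simp only [F, ArithmeticFunction.coe_mk, hp0, if_false]
  rw [h3, h2]
  apply Finset.sum_congr rfl
  intro m hm
  have hm0 : m ≠ 0 := fun h => hr0 (Nat.eq_zero_of_zero_dvd (h ▸ Nat.dvd_of_mem_divisors hm))
  simp only [F, ArithmeticFunction.coe_mk, hm0, if_false]

/-! ### the coefficients of the mollifier -/

theorem bc_small (θ L : ℝ) (hθL : 0 < θ * L) (m : ℕ) (hm2 : Real.log m ≤ θ * L) :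
    bc θ L 0 m = ((ArithmeticFunction.moebius m : ℤ) : ℂ) := by
  unfold bc
  rw [Pool.Agent.H448R2.GC.cu_one 5 (θ * L / 5) _ (by positivity) (by linarith)]
  simp

theorem bc_large (θ L : ℝ) (hθL : 0 < θ * L) (m : ℕ) (hm2 : 2 * (θ * L) < Real.log m) :
    bc θ L 0 m = 0 := by
  unfold bc
  rw [Pool.Agent.H448R2.GC.cu_zero 5 (θ * L / 5) _ (by positivity) (by push_cast; linarith)]
  simp

/-- the coefficients at small multiples of a large prime -/
theorem cf_eq (θ L : ℝ) (hθL : 0 < θ * L) (β : ℝ → ℝ) (c w : ℝ) (p j : ℕ) (hp : p.Prime)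
    (hpl : 2 * (θ * L) < Real.log p) (hj : 1 ≤ j) (hjl : Real.log j ≤ θ * L) :
    cf θ L β c w (p * j) = ∑ m ∈ j.divisors, ((ArithmeticFunction.moebius m : ℤ) : ℂ) *
      (β ((Real.log (((p * j : ℕ) : ℝ) / (m : ℝ)) - c) / w) : ℂ) := by
  unfold cf
  have hj0 : j ≠ 0 := by omega
  have hpj : p * j ≠ 0 := mul_ne_zero hp.ne_zero hj0
  symm
  have hsub : j.divisors ⊆ (p * j).divisors := Nat.divisors_subset_of_dvd hpj (Dvd.intro_left p rfl)
  rw [← Finset.sum_subset hsub (f := fun m => bc θ L 0 m *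
    (β ((Real.log (((p * j : ℕ) : ℝ) / (m : ℝ)) - c) / w) : ℂ))]
  · apply Finset.sum_congr rfl
    intro m hm
    have hmj := Nat.dvd_of_mem_divisors hm
    have hm1 : 1 ≤ m := Nat.pos_of_mem_divisors hm
    rw [bc_small θ L hθL m]
    refine le_trans (Real.log_le_log (by exact_mod_cast hm1) ?_) hjl
    exact_mod_cast Nat.le_of_dvd (by omega) hmj
  · intro m hm hmj
    have hmpj := Nat.dvd_of_mem_divisors hm
    have hm1 : 1 ≤ m := Nat.pos_of_mem_divisors hm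
    have hpm : p ∣ m := by
      by_contra hnp
      have hc : Nat.Coprime m p := (Nat.Prime.coprime_iff_not_dvd hp).2 hnp |>.symm
      exact hmj (Nat.mem_divisors.2 ⟨hc.dvd_of_dvd_mul_left hmpj, hj0⟩)
    rw [bc_large θ L hθL m, zero_mul]
    refine lt_of_lt_of_le hpl (Real.log_le_log (by exact_mod_cast hp.pos) ?_)
    exact_mod_cast Nat.le_of_dvd (by omega) hpm


/-! ### integrals against the kernel -/

theorem k_int {β : ℝ → ℝ} {k : ℝ → ℂ} {C0 : ℝ} (hB : Bump β k C0) {E : Type}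
    [NormedAddCommGroup E] [NormedSpace ℝ E] (f : ℝ → E) (hf : Continuous f) (A : ℝ)
    (hA : ∀ v, ‖f v‖ ≤ A * (1 + |v|) ^ 8) : Integrable (fun v => ‖k v‖ • f v) := by
  have hi : Integrable (fun v : ℝ => (C0 * A) * (1 + v ^ 2)⁻¹) :=
    integrable_inv_one_add_sq.const_mul _
  refine Integrable.mono' hi ((hB.kcont.norm.smul hf).aestronglyMeasurable) ?_
  filter_upwards with v
  rw [norm_smul, norm_norm]
  have h1 := hB.kbd v
  have h2 := hA v
  have h0 : 0 < 1 + |v| := by positivity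
  have hC := hB.Cp
  calc ‖k v‖ * ‖f v‖ ≤ (C0 / (1 + |v|) ^ 10) * (A * (1 + |v|) ^ 8) :=
        mul_le_mul h1 h2 (norm_nonneg _) (by positivity)
    _ = (C0 * A) * ((1 + |v|) ^ 2)⁻¹ := by
        field_simp
    _ ≤ (C0 * A) * (1 + v ^ 2)⁻¹ := by
        have hA0 : 0 ≤ A := by
          have h3 := le_trans (norm_nonneg _) (hA 0)
          simpa using h3
        apply mul_le_mul_of_nonneg_left _ (by positivity)
        apply inv_anti₀ (by positivity)
        nlinarith [abs_nonneg v, sq_abs v]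

/-- the Euler factor function -/
noncomputable def gj (j : ℕ) (v : ℝ) : ℝ := ∏ p ∈ j.primeFactors, ‖1 - cexp (I * v * Real.log p)‖

theorem gj_cont (j : ℕ) : Continuous (gj j) := by
  unfold gj
  apply continuous_finsetProd
  intro p _
  fun_prop

theorem gj_nonneg (j : ℕ) (v : ℝ) : 0 ≤ gj j v := Finset.prod_nonneg fun _ _ => norm_nonneg _

theorem fac_le (v x : ℝ) : ‖1 - cexp (I * v * x)‖ ≤ 2 := by
  have h1 : ‖cexp (I * v * x)‖ = 1 := by
    have : I * (v : ℂ) * x = ((v * x : ℝ) : ℂ) * I := by push_cast; ring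
    rw [this, Complex.norm_exp_ofReal_mul_I]
  calc ‖1 - cexp (I * v * x)‖ ≤ ‖(1 : ℂ)‖ + ‖cexp (I * v * x)‖ := norm_sub_le _ _
    _ = 2 := by rw [h1, norm_one]; norm_num

theorem gj_le (j : ℕ) (v : ℝ) : gj j v ≤ 2 ^ j.primeFactors.card := by
  unfold gj
  rw [← Finset.prod_const]
  exact Finset.prod_le_prod (fun _ _ => norm_nonneg _) fun p _ => fac_le v _

theorem gj_sq (j : ℕ) (v : ℝ) :
    gj j v ^ 2 = ∏ p ∈ j.primeFactors, ‖1 - cexp (I * v * Real.log p)‖ ^ 2 := by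
  unfold gj
  rw [Finset.prod_pow]


theorem k_int0 {β : ℝ → ℝ} {k : ℝ → ℂ} {C0 : ℝ} (hB : Bump β k C0) :
    Integrable (fun v => ‖k v‖) := by
  have h := k_int hB (fun _ : ℝ => (1 : ℝ)) continuous_const 1 (fun v => by
    rw [norm_one, one_mul]
    exact one_le_pow₀ (by linarith [abs_nonneg v]))
  simpa using h

theorem k_gj {β : ℝ → ℝ} {k : ℝ → ℂ} {C0 : ℝ} (hB : Bump β k C0) (j : ℕ) (w : ℝ) :
    Integrable (fun v => ‖k v‖ * gj j (v / w)) := by
  have h := k_int hB (fun v : ℝ => gj j (v / w)) ((gj_cont j).comp (continuous_id.div_const w))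
    (2 ^ j.primeFactors.card) (fun v => by
      rw [Real.norm_eq_abs, abs_of_nonneg (gj_nonneg _ _)]
      refine le_trans (gj_le _ _) ?_
      exact le_mul_of_one_le_right (by positivity) (one_le_pow₀ (by linarith [abs_nonneg v])))
  simpa using h

theorem k_gj2 {β : ℝ → ℝ} {k : ℝ → ℂ} {C0 : ℝ} (hB : Bump β k C0) (j : ℕ) (w : ℝ) :
    Integrable (fun v => ‖k v‖ * gj j (v / w) ^ 2) := by
  have h := k_int hB (fun v : ℝ => gj j (v / w) ^ 2)
    (((gj_cont j).comp (continuous_id.div_const w)).pow 2)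
    ((2 ^ j.primeFactors.card) ^ 2) (fun v => by
      rw [Real.norm_eq_abs, abs_of_nonneg (sq_nonneg _)]
      refine le_trans (pow_le_pow_left₀ (gj_nonneg _ _) (gj_le _ _) 2) ?_
      exact le_mul_of_one_le_right (by positivity) (one_le_pow₀ (by linarith [abs_nonneg v])))
  simpa using h

theorem cf_bound {β : ℝ → ℝ} {k : ℝ → ℂ} {C0 : ℝ} (hB : Bump β k C0) (θ L : ℝ)
    (hθL : 0 < θ * L) (c w : ℝ) (p j : ℕ) (hp : p.Prime)
    (hpl : 2 * (θ * L) < Real.log p) (hj : 1 ≤ j) (hjl : Real.log j ≤ θ * L) :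
    ‖cf θ L β c w (p * j)‖ ≤ ∫ v : ℝ, ‖k v‖ * gj j (v / w) := by
  rw [cf_eq θ L hθL β c w p j hp hpl hj hjl]
  have hj0 : j ≠ 0 := by omega
  have hpj0 : ((p * j : ℕ) : ℝ) ≠ 0 := by exact_mod_cast mul_ne_zero hp.ne_zero hj0
  have hint : ∀ x : ℝ, Integrable (fun v : ℝ => k v * cexp (-(I * x * v))) := by
    intro x
    refine Integrable.mono' (k_int0 hB) ?_ ?_
    · refine (hB.kcont.mul ?_).aestronglyMeasurable
      fun_prop
    · filter_upwards with v
      have h1 : -(I * (x : ℂ) * v) = ((-(x * v) : ℝ) : ℂ) * I := by push_cast; ring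
      rw [norm_mul, h1, Complex.norm_exp_ofReal_mul_I, mul_one]
  have h1 : ∑ m ∈ j.divisors, ((ArithmeticFunction.moebius m : ℤ) : ℂ) *
      (β ((Real.log (((p * j : ℕ) : ℝ) / (m : ℝ)) - c) / w) : ℂ) =
      ∫ v : ℝ, k v * cexp (-(I * ((Real.log ((p * j : ℕ) : ℝ) - c) / w : ℝ) * v)) *
        ∏ q ∈ j.primeFactors, (1 - cexp (I * ((v / w : ℝ) : ℂ) * Real.log q)) := by
    have h2 : ∀ m ∈ j.divisors, ((ArithmeticFunction.moebius m : ℤ) : ℂ) *
        (β ((Real.log (((p * j : ℕ) : ℝ) / (m : ℝ)) - c) / w) : ℂ) =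
        ∫ v : ℝ, ((ArithmeticFunction.moebius m : ℤ) : ℂ) * (k v *
          cexp (-(I * (((Real.log (((p * j : ℕ) : ℝ) / (m : ℝ)) - c) / w : ℝ) : ℂ) * v))) := by
      intro m _
      rw [hB.inv, integral_const_mul]
    rw [Finset.sum_congr rfl h2, ← integral_finsetSum _ (fun m _ => (hint _).const_mul _)]
    apply integral_congr_ae
    filter_upwards with v
    have h3 := moeb_sum (fun m => cexp (I * ((v / w : ℝ) : ℂ) * Real.log m)) (by simp)
      (by
        intro a b ha hb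
        have ha' : (a : ℝ) ≠ 0 := by exact_mod_cast ha
        have hb' : (b : ℝ) ≠ 0 := by exact_mod_cast hb
        rw [← Complex.exp_add]
        congr 1
        push_cast
        rw [Real.log_mul ha' hb']
        push_cast
        ring) hj0
    rw [← h3, Finset.mul_sum]
    apply Finset.sum_congr rfl
    intro m hm
    have hm0 : (m : ℝ) ≠ 0 := by
      have := Nat.pos_of_mem_divisors hm
      positivity
    have h4 : cexp (-(I * (((Real.log (((p * j : ℕ) : ℝ) / (m : ℝ)) - c) / w : ℝ) : ℂ) * v)) =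
        cexp (-(I * ((Real.log ((p * j : ℕ) : ℝ) - c) / w : ℝ) * v)) *
          cexp (I * ((v / w : ℝ) : ℂ) * Real.log m) := by
      rw [← Complex.exp_add]
      congr 1
      rw [Real.log_div hpj0 hm0]
      push_cast
      ring
    rw [h4]
    ring
  rw [h1]
  refine le_trans (norm_integral_le_integral_norm _) (le_of_eq ?_)
  apply integral_congr_ae
  filter_upwards with v
  have h5 : ∀ x : ℝ, ‖cexp (-(I * (x : ℂ) * v))‖ = 1 := by
    intro x
    have h6 : -(I * (x : ℂ) * v) = ((-(x * v) : ℝ) : ℂ) * I := by push_cast; ring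
    rw [h6, Complex.norm_exp_ofReal_mul_I]
  rw [norm_mul, norm_mul, h5, mul_one, norm_prod]
  rfl

/-- Cauchy-Schwarz -/
theorem cs (φ g : ℝ → ℝ) (hφ : ∀ v, 0 ≤ φ v) (h0 : Integrable φ)
    (h1 : Integrable (fun v => φ v * g v)) (h2 : Integrable (fun v => φ v * g v ^ 2)) :
    (∫ v, φ v * g v) ^ 2 ≤ (∫ v, φ v) * ∫ v, φ v * g v ^ 2 := by
  have h : ∀ t : ℝ, 0 ≤ (∫ v, φ v) * (t * t) + (-2 * ∫ v, φ v * g v) * t +
      ∫ v, φ v * g v ^ 2 := by
    intro t
    have h3 : 0 ≤ ∫ v, φ v * (g v - t) ^ 2 :=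
      integral_nonneg fun v => mul_nonneg (hφ v) (sq_nonneg _)
    have h4 : ∫ v, φ v * (g v - t) ^ 2 = (∫ v, φ v) * (t * t) + (-2 * ∫ v, φ v * g v) * t +
        ∫ v, φ v * g v ^ 2 := by
      have h5 : (fun v => φ v * (g v - t) ^ 2) =
          fun v => (t * t) * φ v + ((-2 * t) * (φ v * g v) + φ v * g v ^ 2) := by
        funext v; ring
      have e1 : ∫ v, ((t * t) * φ v + ((-2 * t) * (φ v * g v) + φ v * g v ^ 2)) =
          (∫ v, (t * t) * φ v) + ∫ v, ((-2 * t) * (φ v * g v) + φ v * g v ^ 2) :=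
        integral_add (h0.const_mul _) ((h1.const_mul _).add h2)
      have e2 : ∫ v, ((-2 * t) * (φ v * g v) + φ v * g v ^ 2) =
          (∫ v, (-2 * t) * (φ v * g v)) + ∫ v, φ v * g v ^ 2 :=
        integral_add (h1.const_mul _) h2
      rw [h5, e1, e2, integral_const_mul, integral_const_mul]
      ring
    rw [← h4]
    exact h3
  have h6 := discrim_le_zero h
  unfold discrim at h6
  nlinarith

/-- the sum of the reciprocals of the primes in a band -/
theorem S1_le (h2 : S_PR) (e0 : ℝ) (he0 : 0 < e0) : ∃ B : ℝ, 0 < B ∧ ∀ L c w : ℝ, 1 ≤ L →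
    1 ≤ e0 * L → e0 * L ≤ c - w → c + w ≤ L / 2 → ∑ p ∈ Pb c w, 1 / (p : ℝ) ≤ B := by
  obtain ⟨C, hC, h⟩ := h2.1
  refine ⟨2 * (C / e0), by positivity, ?_⟩
  intro L c w hL heL hlo hhi
  have hL0 : 0 < L := by linarith
  have h3 := h (c - w) (1 / L) 0 ⌊Real.exp (c + w)⌋₊ (by linarith) (by positivity) (by
    rw [div_le_one hL0]; exact hL)
  have h4 : C / (1 / L * (c - w)) ≤ C / e0 := by
    apply div_le_div_of_nonneg_left hC.le he0
    rw [one_div, inv_mul_eq_div, le_div_iff₀ hL0]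
    exact hlo
  have h5 : ∑ p ∈ Pb c w, 1 / (p : ℝ) ≤ 2 * ∑ p ∈ Pb c w,
      Real.exp (-((1 / L) ^ 2 * (0 - Real.log p) ^ 2)) / p := by
    rw [Finset.mul_sum]
    apply Finset.sum_le_sum
    intro p hp
    unfold Pb at hp
    rw [Finset.mem_filter, Finset.mem_Icc] at hp
    obtain ⟨⟨hp1, hp2⟩, hpp, hp3⟩ := hp
    have hp0 : (0 : ℝ) < p := by exact_mod_cast hp1
    have h6 : Real.log p ≤ c + w := by
      rw [Real.log_le_iff_le_exp hp0]
      exact (Nat.le_floor_iff (Real.exp_pos _).le).1 hp2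
    have h7 : 0 ≤ Real.log p := Real.log_natCast_nonneg p
    have h8 : Real.log p / L ≤ 1 / 2 := by
      rw [div_le_iff₀ hL0]
      linarith
    have h9 : 0 ≤ Real.log p / L := by positivity
    have h10 : (1 / L) ^ 2 * (0 - Real.log p) ^ 2 = (Real.log p / L) ^ 2 := by ring
    have h11 : (Real.log p / L) ^ 2 ≤ 1 / 4 := by nlinarith
    have h12 := Real.add_one_le_exp (-((1 / L) ^ 2 * (0 - Real.log p) ^ 2))
    rw [h10] at h12 ⊢
    have h13 : 1 ≤ 2 * Real.exp (-(Real.log p / L) ^ 2) := by linarith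
    rw [← mul_div_assoc]
    exact div_le_div_of_nonneg_right h13 hp0.le
  have h6 : ∑ p ∈ Pb c w, Real.exp (-((1 / L) ^ 2 * (0 - Real.log p) ^ 2)) / p ≤ C / e0 :=
    le_trans h3 h4
  linarith


theorem hf_bound {β : ℝ → ℝ} {k : ℝ → ℂ} {C0 : ℝ} (hB : Bump β k C0) (θ L : ℝ)
    (hθL : 0 < θ * L) (c w : ℝ) (hlo : 2 * (θ * L) < c - w) (j : ℕ) (hj : 1 ≤ j)
    (hjl : Real.log j ≤ θ * L) :
    ‖hf θ L β c w j‖ ≤ (∑ p ∈ Pb c w, 1 / (p : ℝ)) * ∫ v : ℝ, ‖k v‖ * gj j (v / w) := by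
  unfold hf
  rw [Finset.sum_mul]
  refine le_trans (norm_sum_le _ _) (Finset.sum_le_sum fun p hp => ?_)
  unfold Pb at hp
  rw [Finset.mem_filter, Finset.mem_Icc] at hp
  obtain ⟨⟨hp1, _⟩, hpp, hp3⟩ := hp
  rw [norm_mul, norm_div]
  have hβ : ‖(β ((Real.log p - c) / w) : ℂ)‖ ≤ 1 := by
    rw [Complex.norm_real, Real.norm_eq_abs, abs_of_nonneg (hB.nonneg _)]
    exact hB.le_one _
  have hc := cf_bound hB θ L hθL c w p j hpp (by linarith) hj hjl
  rw [Complex.norm_natCast]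
  apply mul_le_mul _ hc (norm_nonneg _) (by positivity)
  exact div_le_div_of_nonneg_right hβ (by positivity)

theorem core (h1 : S_EUL) (h2 : S_PR) (β : ℝ → ℝ) (k : ℝ → ℂ) (C0 : ℝ) (hB : Bump β k C0)
    (ε e0 θ : ℝ) (hε : 0 < ε) (he0 : 0 < e0) (hθ : 0 < θ) (hθe : θ ≤ e0 / 4) :
    ∃ C T0 : ℝ, 0 < C ∧ 10 ≤ T0 ∧ ∀ (T c w w0 : ℝ) (N : ℕ), T0 ≤ T → ε * Real.log T ≤ w →
      e0 * Real.log T ≤ c - w → c + w ≤ Real.log T / 2 → 0 < w0 → w0 ≤ 1 →
      1 ≤ w0 * Real.log T → (N : ℝ) ≤ Real.exp (θ * Real.log T) →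
      ∑ j ∈ Finset.Icc 2 N, ‖hf θ (Real.log T) β c w j‖ ^ 2 / (j : ℝ) ^ (1 + 2 * w0) ≤
        C / (w0 * Real.log T) ^ 2 := by
  obtain ⟨B, hBp, hS⟩ := S1_le h2 e0 he0
  obtain ⟨CE, hCE, hE⟩ := h1
  set A : ℝ := ∫ v, ‖k v‖ with hA
  set A2 : ℝ := ∫ v, ‖k v‖ * |v| ^ 2 with hA2
  set A8 : ℝ := ∫ v, ‖k v‖ * |v| ^ 8 with hA8
  have hA0 : 0 ≤ A := integral_nonneg fun v => norm_nonneg _
  have hA20 : 0 ≤ A2 := integral_nonneg fun v => by positivity
  have hA80 : 0 ≤ A8 := integral_nonneg fun v => by positivity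
  have hi2 : Integrable (fun v : ℝ => ‖k v‖ * |v| ^ 2) := by
    have h := k_int hB (fun v : ℝ => |v| ^ 2) (by fun_prop) 1 (fun v => by
      rw [Real.norm_eq_abs, abs_of_nonneg (by positivity), one_mul]
      have h3 : |v| ≤ 1 + |v| := by linarith
      calc |v| ^ 2 ≤ (1 + |v|) ^ 2 := pow_le_pow_left₀ (abs_nonneg v) h3 2
        _ ≤ (1 + |v|) ^ 8 := pow_le_pow_right₀ (by linarith [abs_nonneg v]) (by norm_num))
    simpa using h
  have hi8 : Integrable (fun v : ℝ => ‖k v‖ * |v| ^ 8) := by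
    have h := k_int hB (fun v : ℝ => |v| ^ 8) (by fun_prop) 1 (fun v => by
      rw [Real.norm_eq_abs, abs_of_nonneg (by positivity), one_mul]
      exact pow_le_pow_left₀ (abs_nonneg v) (by linarith) 8)
    simpa using h
  refine ⟨B ^ 2 * A * (CE * (A2 / ε ^ 2 + A8 / ε ^ 8)) + 1, max 10 (Real.exp (1 / e0)),
    by positivity, le_max_left _ _, ?_⟩
  intro T c w w0 N hT hw hlo hhi hw0 hw01 hwL hN
  set L : ℝ := Real.log T with hL
  have hT10 : (10 : ℝ) ≤ T := le_trans (le_max_left _ _) hT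
  have hTp : 0 < T := by linarith
  have hL1 : 1 ≤ L := by
    rw [hL, Real.le_log_iff_exp_le hTp]
    have := Real.exp_one_lt_d9
    linarith
  have hLe : 1 / e0 ≤ L := by
    rw [hL, Real.le_log_iff_exp_le hTp]
    exact le_trans (le_max_right _ _) hT
  have heL : 1 ≤ e0 * L := by
    rw [div_le_iff₀ he0] at hLe
    linarith
  have hL0 : 0 < L := by linarith
  have hθL : 0 < θ * L := mul_pos hθ hL0
  have hlo2 : 2 * (θ * L) < c - w := by nlinarith
  have hw_pos : 0 < w := lt_of_lt_of_le (mul_pos hε hL0) hw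
  have hSB := hS L c w hL1 heL hlo hhi
  have hSnn : 0 ≤ ∑ p ∈ Pb c w, 1 / (p : ℝ) := Finset.sum_nonneg fun p _ => by positivity
  set y : ℝ := w0 * L with hy
  have hy0 : 0 < y := by linarith
  -- each term
  have hterm : ∀ j ∈ Finset.Icc 2 N, ‖hf θ L β c w j‖ ^ 2 / (j : ℝ) ^ (1 + 2 * w0) ≤
      B ^ 2 * A * ∫ v, ‖k v‖ * (gj j (v / w) ^ 2 / (j : ℝ) ^ (1 + 2 * w0)) := by
    intro j hj
    rw [Finset.mem_Icc] at hj
    have hj0 : (0 : ℝ) < j := by
      have : 0 < j := by omega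
      exact_mod_cast this
    have hjl : Real.log j ≤ θ * L := by
      rw [Real.log_le_iff_le_exp hj0]
      refine le_trans ?_ hN
      exact_mod_cast hj.2
    have h3 := hf_bound hB θ L hθL c w hlo2 j (by omega) hjl
    have hI : 0 ≤ ∫ v : ℝ, ‖k v‖ * gj j (v / w) :=
      integral_nonneg fun v => mul_nonneg (norm_nonneg _) (gj_nonneg _ _)
    have h4 : ‖hf θ L β c w j‖ ≤ B * ∫ v : ℝ, ‖k v‖ * gj j (v / w) :=
      le_trans h3 (mul_le_mul_of_nonneg_right hSB hI)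
    have h5 := cs (fun v => ‖k v‖) (fun v => gj j (v / w)) (fun v => norm_nonneg _) (k_int0 hB)
      (k_gj hB j w) (k_gj2 hB j w)
    have h6 : ‖hf θ L β c w j‖ ^ 2 ≤ B ^ 2 * (A * ∫ v, ‖k v‖ * gj j (v / w) ^ 2) := by
      calc ‖hf θ L β c w j‖ ^ 2 ≤ (B * ∫ v : ℝ, ‖k v‖ * gj j (v / w)) ^ 2 :=
            pow_le_pow_left₀ (norm_nonneg _) h4 2
        _ = B ^ 2 * (∫ v : ℝ, ‖k v‖ * gj j (v / w)) ^ 2 := by ring
        _ ≤ _ := mul_le_mul_of_nonneg_left h5 (by positivity)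
    have h7 : 0 < (j : ℝ) ^ (1 + 2 * w0) := Real.rpow_pos_of_pos hj0 _
    have h8 : ∫ v, ‖k v‖ * (gj j (v / w) ^ 2 / (j : ℝ) ^ (1 + 2 * w0)) =
        (∫ v, ‖k v‖ * gj j (v / w) ^ 2) / (j : ℝ) ^ (1 + 2 * w0) := by
      rw [← integral_div]
      apply integral_congr_ae
      filter_upwards with v
      rw [mul_div_assoc]
    rw [h8, div_le_iff₀ h7, mul_assoc (B ^ 2 * A), div_mul_cancel₀ _ h7.ne']
    linarith
  refine le_trans (Finset.sum_le_sum hterm) ?_
  rw [← Finset.mul_sum]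
  have hint : ∀ j ∈ Finset.Icc 2 N, Integrable (fun v : ℝ =>
      ‖k v‖ * (gj j (v / w) ^ 2 / (j : ℝ) ^ (1 + 2 * w0))) := by
    intro j _
    have h := (k_gj2 hB j w).div_const ((j : ℝ) ^ (1 + 2 * w0))
    refine h.congr ?_
    filter_upwards with v
    rw [mul_div_assoc]
  rw [← integral_finsetSum _ hint]
  have hi : Integrable (fun v : ℝ => ‖k v‖ * (CE * ((|v / w| / w0) ^ 2 + (|v / w| / w0) ^ 8))) := by
    have h := ((hi2.const_mul (CE / (w * w0) ^ 2)).add (hi8.const_mul (CE / (w * w0) ^ 8)))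
    refine h.congr ?_
    filter_upwards with v
    simp only [Pi.add_apply]
    rw [abs_div, abs_of_pos hw_pos]
    field_simp
  have hmono : ∫ v, ∑ j ∈ Finset.Icc 2 N, ‖k v‖ * (gj j (v / w) ^ 2 / (j : ℝ) ^ (1 + 2 * w0)) ≤
      ∫ v, ‖k v‖ * (CE * ((|v / w| / w0) ^ 2 + (|v / w| / w0) ^ 8)) := by
    apply integral_mono (integrable_finsetSum _ hint) hi
    intro v
    simp only
    rw [← Finset.mul_sum]
    apply mul_le_mul_of_nonneg_left _ (norm_nonneg _)
    have h9 := hE w0 (v / w) N hw0 hw01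
    refine le_trans (le_of_eq ?_) h9
    apply Finset.sum_congr rfl
    intro j _
    rw [gj_sq]
  have hval : ∫ v, ‖k v‖ * (CE * ((|v / w| / w0) ^ 2 + (|v / w| / w0) ^ 8)) =
      CE * (A2 / (w * w0) ^ 2 + A8 / (w * w0) ^ 8) := by
    have e1 : (fun v : ℝ => ‖k v‖ * (CE * ((|v / w| / w0) ^ 2 + (|v / w| / w0) ^ 8))) =
        fun v => (CE / (w * w0) ^ 2) * (‖k v‖ * |v| ^ 2) +
          (CE / (w * w0) ^ 8) * (‖k v‖ * |v| ^ 8) := by
      funext v
      rw [abs_div, abs_of_pos hw_pos]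
      field_simp
    have e2 : ∫ v, ((CE / (w * w0) ^ 2) * (‖k v‖ * |v| ^ 2) +
          (CE / (w * w0) ^ 8) * (‖k v‖ * |v| ^ 8)) =
        (∫ v, (CE / (w * w0) ^ 2) * (‖k v‖ * |v| ^ 2)) +
          ∫ v, (CE / (w * w0) ^ 8) * (‖k v‖ * |v| ^ 8) :=
      integral_add (hi2.const_mul _) (hi8.const_mul _)
    rw [e1, e2, integral_const_mul, integral_const_mul, ← hA2, ← hA8]
    ring
  rw [hval] at hmono
  have hy_le : ε * y ≤ w * w0 := by
    rw [hy]
    calc ε * (w0 * L) = (ε * L) * w0 := by ring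
      _ ≤ w * w0 := mul_le_mul_of_nonneg_right hw hw0.le
  have h10 : A2 / (w * w0) ^ 2 ≤ A2 / ε ^ 2 * (1 / y ^ 2) := by
    calc A2 / (w * w0) ^ 2 ≤ A2 / (ε * y) ^ 2 := by
          apply div_le_div_of_nonneg_left hA20 (by positivity)
          exact pow_le_pow_left₀ (by positivity) hy_le 2
      _ = _ := by rw [mul_pow]; field_simp
  have h11 : A8 / (w * w0) ^ 8 ≤ A8 / ε ^ 8 * (1 / y ^ 2) := by
    calc A8 / (w * w0) ^ 8 ≤ A8 / (ε * y) ^ 8 := by
          apply div_le_div_of_nonneg_left hA80 (by positivity)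
          exact pow_le_pow_left₀ (by positivity) hy_le 8
      _ = A8 / ε ^ 8 * (1 / y ^ 8) := by rw [mul_pow]; field_simp
      _ ≤ A8 / ε ^ 8 * (1 / y ^ 2) := by
          apply mul_le_mul_of_nonneg_left _ (by positivity)
          apply one_div_le_one_div_of_le (by positivity)
          exact pow_le_pow_right₀ hwL (by norm_num)
  calc B ^ 2 * A * ∫ v, ∑ j ∈ Finset.Icc 2 N,
        ‖k v‖ * (gj j (v / w) ^ 2 / (j : ℝ) ^ (1 + 2 * w0))
      ≤ B ^ 2 * A * (CE * (A2 / (w * w0) ^ 2 + A8 / (w * w0) ^ 8)) :=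
        mul_le_mul_of_nonneg_left hmono (by positivity)
    _ ≤ B ^ 2 * A * (CE * (A2 / ε ^ 2 * (1 / y ^ 2) + A8 / ε ^ 8 * (1 / y ^ 2))) := by
        apply mul_le_mul_of_nonneg_left _ (by positivity)
        apply mul_le_mul_of_nonneg_left _ hCE.le
        linarith
    _ = (B ^ 2 * A * (CE * (A2 / ε ^ 2 + A8 / ε ^ 8))) / y ^ 2 := by ring
    _ ≤ _ := by
        apply div_le_div_of_nonneg_right _ (by positivity)
        linarith

/-- **HD-L3** -/
theorem l3 (h1 : S_EUL) (h2 : S_PR) : S_L3 := by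
  intro β k C0 hB ε hε θ hθ hθ16
  obtain ⟨C, T0, hC, hT0, h⟩ := core h1 h2 β k C0 hB ε (1 / 4) θ hε (by norm_num) hθ (by linarith)
  refine ⟨C, T0, hC, hT0, ?_⟩
  intro T c w w0 N hT hb hw0 hw01 hwL hN
  have hL : 0 ≤ Real.log T := Real.log_nonneg (by linarith)
  refine h T c w w0 N hT hb.w1 (by have := hb.lo; linarith) ?_ hw0 hw01 hwL hN
  have h3 := hb.hi
  nlinarith

/-- **HE-L3g** -/
theorem l3g (h1 : S_EUL) (h2 : S_PR) : Pool.Agent.H466.HE.S_L3g := by
  intro β k C0 hB ε hε θ hθ _ hθε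
  obtain ⟨C, T0, hC, hT0, h⟩ := core h1 h2 β k C0 hB ε ε θ hε hε hθ (by linarith)
  refine ⟨C, T0, hC, hT0, ?_⟩
  intro T c w w0 N hT hb hw0 hw01 hwL hN
  have hL : 0 ≤ Real.log T := Real.log_nonneg (by linarith)
  refine h T c w w0 N hT hb.w1 hb.lo ?_ hw0 hw01 hwL hN
  have h3 := hb.hi
  nlinarith

end Pool.Agent.H671.HE
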